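import Pool.Agent.H646.EC.Final

/-!
# Condensedness is not invariant under elementary equivalence (MP_f5330b_al, Q1: negative answer)

There are finitely generated elementarily equivalent groups `G` and `H` such that `G` is condensed
and `H` is not.
-/

set_option autoImplicit false

namespace Pool.Agent.Results.MP_f5330b_al.ElemEquivCondensed

open Pool.Agent.H646.EC Pool.Agent.H67R3.CondDefs

/-- There are finitely generated groups `G` and `H` which satisfy the same first-order sentences of
the language of groups, such that `G` is condensed and `H` is not condensed. -/
theorem result : ∃ (G H : Type) (_ : Group G) (_ : Group H), Group.FG G ∧ Group.FG H ∧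
    ElemEquiv G H ∧ Condensed G ∧ ¬ Condensed H :=
  Pool.Agent.H646.EC.main

end Pool.Agent.Results.MP_f5330b_al.ElemEquivCondensed
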